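import Pool.Agent.Zk4.Me

set_option autoImplicit false

/-!
Littlewood's lemma for `ζ` on the critical line, two sided (helper69).
-/

namespace Pool.Agent.Zk69.Hx

open Filter Topology MeasureTheory Complex Set Metric
open H370 (mult zset GoodL good_zeta NN Zf NR)
open Pool.Agent.Zk4

noncomputable section

lemma FF_zeta : FF (fun _ => 1) 1 = riemannZeta := by
  funext s
  unfold FF Mp
  simp

lemma adm_one : Adm (fun _ => (1:ℂ)) := ⟨rfl, fun n => by simp⟩

/-- a height without zeros close by -/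
def GH (C U : ℝ) : Prop := ∀ x ∈ Icc (1 / 2 : ℝ) 3, riemannZeta ⟨x, U⟩ ≠ 0 ∧
  ‖deriv riemannZeta ⟨x, U⟩ / riemannZeta ⟨x, U⟩‖ ≤ C * Real.log U ^ 2

lemma exists_GH : ∃ C : ℝ, 0 < C ∧ ∀ T : ℝ, 80 ≤ T → ∃ U ∈ Icc T (T + 1), GH C U := by
  obtain ⟨C, hC, hh⟩ := heights
  refine ⟨C, hC, fun T hT => ?_⟩
  obtain ⟨U, hU, h⟩ := hh (fun _ => 1) 1 T adm_one le_rfl (by linarith) (by push_cast; linarith)
  refine ⟨U, hU, fun x hx => ?_⟩
  obtain ⟨h1, h2⟩ := h x hx
  rw [FF_zeta] at h1 h2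
  refine ⟨h1, h2.trans ?_⟩
  have h3 : Real.log T ≤ Real.log U := Real.log_le_log (by linarith) hU.1
  have h4 : 0 ≤ Real.log T := Real.log_nonneg (by linarith)
  have h5 : Real.log T ^ 2 ≤ Real.log U ^ 2 := pow_le_pow_left₀ h4 h3 2
  exact mul_le_mul_of_nonneg_left h5 hC.le

set_option maxHeartbeats 1000000 in
theorem lrect {C : ℝ} (hC : 0 < C) {c d : ℝ} (hc80 : 80 ≤ c) (hcd : c < d) (hcb : GH C c) (hdb : GH C d) :
    |(∫ y in c..d, Real.log ‖riemannZeta ⟨1 / 2, y⟩‖) - 2 * Real.pi * DD c d| ≤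
      (32 * (4 * C + 36) + 400) * Real.log d ^ 4 := by
  have hT0 : 0 < d := by linarith
  have hL1 : 1 ≤ Real.log d := H370.Loc.one_le_log (by linarith)
  have hL3 : 3 ≤ Real.log d := by
    rw [Real.le_log_iff_exp_le hT0]
    have h1 : Real.exp 3 = Real.exp 1 ^ 3 := by rw [← Real.exp_nat_mul]; norm_num
    have h2 := Real.exp_one_lt_d9
    have h3 : Real.exp 1 ^ 3 ≤ 2.7182818286 ^ 3 := pow_le_pow_left₀ (Real.exp_pos 1).le h2.le 3
    rw [h1]
    have h4 : (2.7182818286 : ℝ) ^ 3 ≤ 80 := by norm_num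
    linarith
  have hlogc0 : 0 ≤ Real.log c := Real.log_nonneg (by linarith)
  have hlogcd : Real.log c ≤ Real.log d := Real.log_le_log (by linarith) hcd.le
  obtain ⟨B, hB⟩ : ∃ B : ℝ, B = 4 * Real.log d := ⟨_, rfl⟩
  have hB6 : 6 ≤ B := by rw [hB]; linarith
  -- the horizontal bound
  obtain ⟨H, hH⟩ : ∃ H : ℝ, H = 4 * C * Real.log d ^ 2 + 36 := ⟨_, rfl⟩
  have hH0 : 0 ≤ H := by rw [hH]; positivity
  have h2pow : ∀ x : ℝ, 3 ≤ x → (2 : ℝ) ^ (-x) ≤ 1 / 8 := by
    intro x hx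
    have h1 : (2 : ℝ) ^ (-x) ≤ (2 : ℝ) ^ (-(3:ℝ)) :=
      Real.rpow_le_rpow_of_exponent_le (by norm_num) (by linarith)
    have h2 : (2 : ℝ) ^ (-(3:ℝ)) = 1 / 8 := by
      rw [Real.rpow_neg (by norm_num)]
      norm_num
    exact h1.trans (le_of_eq h2)
  have zne : ∀ {s : ℂ}, 2 ≤ s.re → riemannZeta s ≠ 0 := by
    intro s hs
    have := FF_ne adm_one (N := 1) le_rfl hs
    rwa [FF_zeta] at this
  have zld : ∀ {s : ℂ}, 3 ≤ s.re → ‖deriv riemannZeta s / riemannZeta s‖ ≤ 288 * (2 : ℝ) ^ (-s.re) := by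
    intro s hs
    have := FF_ld adm_one (N := 1) le_rfl hs
    rwa [FF_zeta] at this
  have zlog : ∀ {s : ℂ}, 6 ≤ s.re → |Real.log ‖riemannZeta s‖| ≤ 18 * (2 : ℝ) ^ (-s.re) := by
    intro s hs
    have := FF_log adm_one (N := 1) le_rfl hs
    rwa [FF_zeta] at this
  have hor : ∀ e : ℝ, (e = c ∨ e = d) → ∀ x : ℝ, 1 / 2 ≤ x → riemannZeta ⟨x, e⟩ ≠ 0 ∧
      ‖deriv riemannZeta ⟨x, e⟩ / riemannZeta ⟨x, e⟩‖ ≤ H := by
    intro e he x hx
    rcases le_or_gt x 3 with h3 | h3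
    · have h5 : 0 ≤ C * Real.log d ^ 2 := by positivity
      rcases he with rfl | rfl
      · obtain ⟨h1, h2⟩ := hcb x ⟨hx, h3⟩
        refine ⟨h1, h2.trans ?_⟩
        rw [hH]
        have h4 : Real.log e ^ 2 ≤ Real.log d ^ 2 := pow_le_pow_left₀ hlogc0 hlogcd 2
        have h6 : C * Real.log e ^ 2 ≤ C * Real.log d ^ 2 := mul_le_mul_of_nonneg_left h4 hC.le
        linarith
      · obtain ⟨h1, h2⟩ := hdb x ⟨hx, h3⟩
        refine ⟨h1, h2.trans ?_⟩
        rw [hH]
        linarith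
    · refine ⟨zne (by simp only; linarith), (zld (by simp only; linarith)).trans ?_⟩
      have := h2pow x h3.le
      rw [hH]
      have h5 : 0 ≤ C * Real.log d ^ 2 := by positivity
      simp only
      linarith
  -- finiteness of the zeros
  have hfin := FF_zeros_finite adm_one (N := 1) le_rfl (1 / 2) B c d (by linarith)
  rw [FF_zeta] at hfin
  classical
  obtain ⟨Z, hZ⟩ : ∃ Z : Finset ℂ, ∀ s : ℂ, s ∈ Z ↔ 1 / 2 < s.re ∧ s.re < B ∧ c < s.im ∧ s.im < d ∧ riemannZeta s = 0 := by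
    have hsub : {s : ℂ | 1 / 2 < s.re ∧ s.re < B ∧ c < s.im ∧ s.im < d ∧ riemannZeta s = 0} ⊆
        {s : ℂ | s ∈ Icc (1 / 2) B ×ℂ Icc c d ∧ riemannZeta s = 0} := by
      rintro s ⟨h1, h2, h3, h4, h5⟩
      exact ⟨⟨⟨h1.le, h2.le⟩, h3.le, h4.le⟩, h5⟩
    refine ⟨(hfin.subset hsub).toFinset, fun s => ?_⟩
    rw [Set.Finite.mem_toFinset]
    rfl
  have hL := Pool.Agent.Q121.UM.t_LIT riemannZeta (fun _ => 1) (1 / 2) B c d 0 Z (by linarith) hcd
    (fun s hs => by
      have h1 := FF_an (fun _ => 1) 1 (s := s) (by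
        rintro rfl
        have := hs.2.1
        simp at this
        linarith)
      rwa [FF_zeta] at h1) (differentiable_const 1) (fun y => by simp)
    (fun x hx => ⟨(hor c (Or.inl rfl) x (by linarith [hx.1])).1, (hor d (Or.inr rfl) x (by linarith [hx.1])).1⟩)
    (fun y hy => zne (by simp only; linarith)) hZ
  simp only [one_re, one_mul, mul_one, intervalIntegral.integral_const, smul_eq_mul] at hL
  obtain ⟨-, hE⟩ := hL
  -- the sum over the zeros
  have hDD : ∑ s ∈ Z, (mult riemannZeta s : ℝ) * (s.re - 1 / 2) = DD c d := by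
    unfold DD
    have e1 : ∑ s ∈ Z, (mult riemannZeta s : ℝ) * (s.re - 1 / 2) =
        ∑ s ∈ Z, (mult riemannZeta s : ℝ) * max (s.re - 1 / 2) 0 := by
      refine Finset.sum_congr rfl fun s hs => ?_
      rw [max_eq_left (by linarith [((hZ s).1 hs).1])]
    rw [e1]
    refine Finset.sum_subset ?_ ?_
    · intro s hs
      obtain ⟨h1, h2, h3, h4, h5⟩ := (hZ s).1 hs
      rw [H370.mem_Zf good_zeta (by linarith)]
      refine ⟨by linarith, ?_, h3, h4.le, h5⟩
      by_contra hcon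
      exact riemannZeta_ne_zero_of_one_le_re (not_lt.1 hcon) h5
    · intro s hs hsZ
      rw [H370.mem_Zf good_zeta (by linarith)] at hs
      obtain ⟨h1, h2, h3, h4, h5⟩ := hs
      have h6 : s.re ≤ 1 / 2 := by
        by_contra hcon
        push Not at hcon
        apply hsZ
        rw [hZ]
        refine ⟨hcon, by linarith, h3, lt_of_le_of_ne h4 ?_, h5⟩
        intro h7
        have h8 := (hor d (Or.inr rfl) s.re hcon.le).1
        rw [← h7] at h8
        exact h8 h5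
      rw [max_eq_right (by linarith), mul_zero]
  rw [← hDD]
  -- the right side
  have hpow : (2 : ℝ) ^ (-B) ≤ 1 / d ^ 2 := by rw [hB]; exact two_pow_small (by linarith)
  have hT2 : d * (1 / d ^ 2) ≤ 1 := by
    rw [mul_one_div, div_le_one (by positivity)]
    nlinarith
  have hdc : d - c ≤ d := by linarith
  have hI1 : |∫ y in c..d, Real.log ‖riemannZeta ⟨B, y⟩‖| ≤ 18 := by
    have h1 := intervalIntegral.norm_integral_le_of_norm_le_const (a := c) (b := d)
      (f := fun y => Real.log ‖riemannZeta ⟨B, y⟩‖) (C := 18 * (1 / d ^ 2)) (fun y _ => by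
        rw [Real.norm_eq_abs]
        refine (zlog (s := ⟨B, y⟩) hB6).trans ?_
        simp only
        linarith)
    rw [Real.norm_eq_abs, abs_of_pos (by linarith : 0 < d - c)] at h1
    refine h1.trans ?_
    have h3 : (0:ℝ) < 1 / d ^ 2 := by positivity
    nlinarith
  have hI2 : |(B - 1 / 2) * (∫ y in c..d, deriv riemannZeta ⟨B, y⟩ / riemannZeta ⟨B, y⟩).re| ≤ 288 * B := by
    have h1 := intervalIntegral.norm_integral_le_of_norm_le_const (a := c) (b := d)
      (f := fun y => deriv riemannZeta ⟨B, y⟩ / riemannZeta ⟨B, y⟩) (C := 288 * (1 / d ^ 2)) (fun y _ => by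
        refine (zld (s := ⟨B, y⟩) (by simp only; linarith)).trans ?_
        simp only
        linarith)
    rw [abs_of_pos (by linarith : 0 < d - c)] at h1
    rw [abs_mul, abs_of_pos (by linarith : 0 < B - 1 / 2)]
    have h2 := (Complex.abs_re_le_norm _).trans h1
    have h3 : (0:ℝ) < 1 / d ^ 2 := by positivity
    have h4 : 288 * (1 / d ^ 2) * (d - c) ≤ 288 := by nlinarith
    have h5 := abs_nonneg (∫ y in c..d, deriv riemannZeta ⟨B, y⟩ / riemannZeta ⟨B, y⟩).re
    nlinarith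
  have hI3 : |∫ σ in (1 / 2)..B, ((∫ x in σ..B, deriv riemannZeta ⟨x, c⟩ / riemannZeta ⟨x, c⟩) -
      (∫ x in σ..B, deriv riemannZeta ⟨x, d⟩ / riemannZeta ⟨x, d⟩)).im| ≤ 2 * H * B ^ 2 := by
    have hint : ∀ e : ℝ, (e = c ∨ e = d) → ∀ σ : ℝ, 1 / 2 ≤ σ → σ ≤ B →
        ‖∫ x in σ..B, deriv riemannZeta ⟨x, e⟩ / riemannZeta ⟨x, e⟩‖ ≤ H * B := by
      intro e he σ hσ hσB
      have h1 := intervalIntegral.norm_integral_le_of_norm_le_const (a := σ) (b := B)
        (f := fun x => deriv riemannZeta ⟨x, e⟩ / riemannZeta ⟨x, e⟩) (C := H) (fun x hx => by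
          rw [uIoc_of_le hσB] at hx
          exact (hor e he x (by linarith [hx.1])).2)
      rw [abs_of_nonneg (by linarith : 0 ≤ B - σ)] at h1
      nlinarith
    have h1 := intervalIntegral.norm_integral_le_of_norm_le_const (a := 1 / 2) (b := B)
      (f := fun σ => ((∫ x in σ..B, deriv riemannZeta ⟨x, c⟩ / riemannZeta ⟨x, c⟩) -
      (∫ x in σ..B, deriv riemannZeta ⟨x, d⟩ / riemannZeta ⟨x, d⟩)).im) (C := 2 * (H * B)) (fun σ hσ => by
        rw [uIoc_of_le (by linarith)] at hσ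
        rw [Real.norm_eq_abs]
        refine (Complex.abs_im_le_norm _).trans ((norm_sub_le _ _).trans ?_)
        have e1 := hint c (Or.inl rfl) σ (by linarith [hσ.1]) hσ.2
        have e2 := hint d (Or.inr rfl) σ (by linarith [hσ.1]) hσ.2
        linarith)
    rw [Real.norm_eq_abs, abs_of_pos (by linarith : 0 < B - 1 / 2)] at h1
    refine h1.trans ?_
    have : 0 ≤ H * B := by positivity
    nlinarith
  rw [hE]
  have hX : ∀ x1 x2 x3 x4 : ℝ, |x1| ≤ 18 → |x2| ≤ 288 * B → |x4| ≤ 2 * H * B ^ 2 →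
      |x1 - x2 + x3 - x4 - x3| ≤ 18 + 288 * B + 2 * H * B ^ 2 := by
    intro x1 x2 x3 x4 h1 h2 h4
    have e : x1 - x2 + x3 - x4 - x3 = x1 + (-x2) + (-x4) := by ring
    rw [e]
    refine (abs_add_three _ _ _).trans ?_
    rw [abs_neg, abs_neg]
    linarith
  refine (hX _ _ _ _ hI1 hI2 hI3).trans ?_
  rw [hH, hB]
  have hLL : 1 ≤ Real.log d ^ 2 := one_le_pow₀ hL1
  have h27 : 27 ≤ Real.log d ^ 3 := by
    have := pow_le_pow_left₀ (by norm_num : (0:ℝ) ≤ 3) hL3 3
    norm_num at this ⊢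
    linarith
  have hL4 : Real.log d ^ 4 = Real.log d ^ 2 * Real.log d ^ 2 := by ring
  have hL4' : Real.log d ^ 4 = Real.log d ^ 3 * Real.log d := by ring
  have hm1 : 27 * Real.log d ≤ Real.log d ^ 4 := by
    rw [hL4']
    exact mul_le_mul_of_nonneg_right h27 (by linarith)
  have hm2 : Real.log d ^ 2 ≤ Real.log d ^ 4 := by
    rw [hL4]
    nlinarith
  have hC4 : 0 ≤ C * Real.log d ^ 4 := by positivity
  have e9 : 2 * (4 * C * Real.log d ^ 2 + 36) * (4 * Real.log d) ^ 2 =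
      128 * (C * Real.log d ^ 4) + 1152 * Real.log d ^ 2 := by ring
  rw [e9]
  nlinarith

/-- Littlewood's lemma on the critical line, two sided, from a fixed height -/
theorem litt_two : ∃ C A : ℝ, 0 < C ∧ 80 ≤ A ∧ ∀ X : ℝ, A + 2 ≤ X →
    |(∫ y in A..X, Real.log ‖riemannZeta ⟨1 / 2, y⟩‖) - 2 * Real.pi * DD A X| ≤ C * Real.log X ^ 4 := by
  obtain ⟨C, hC, hg⟩ := exists_GH
  obtain ⟨K, hK, hup⟩ := logz_upper
  obtain ⟨A, hA, hAg⟩ := hg 80 le_rfl
  have hA80 := hA.1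
  obtain ⟨M, hM⟩ : ∃ M : ℝ, M = 32 * (4 * C + 36) + 400 := ⟨_, rfl⟩
  have hM0 : 0 < M := by rw [hM]; positivity
  refine ⟨16 * M + 2 * K, A, by positivity, hA80, fun X hX => ?_⟩
  have hX82 : 82 ≤ X := by linarith
  obtain ⟨d, hd, hdg⟩ := hg (X - 1) (by linarith)
  obtain ⟨e, he, heg⟩ := hg X (by linarith)
  have hd1 := hd.1
  have hd2 := hd.2
  have he1 := he.1
  have he2 := he.2
  have h1 := lrect hC hA80 (by linarith : A < d) hAg hdg
  have h2 := lrect hC hA80 (by linarith : A < e) hAg heg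
  rw [← hM] at h1 h2
  have hL1 : 1 ≤ Real.log X := H370.Loc.one_le_log (by linarith)
  have hld : Real.log d ≤ Real.log X := Real.log_le_log (by linarith) (by linarith)
  have hld0 : 0 ≤ Real.log d := Real.log_nonneg (by linarith)
  have hle : Real.log e ≤ 2 * Real.log X := by
    have : Real.log e ≤ Real.log (X ^ 2) := Real.log_le_log (by linarith) (by nlinarith)
    rw [Real.log_pow] at this
    exact_mod_cast this
  have hle0 : 0 ≤ Real.log e := Real.log_nonneg (by linarith)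
  have p1 : Real.log d ^ 4 ≤ Real.log X ^ 4 := pow_le_pow_left₀ hld0 hld 4
  have p2 : Real.log e ^ 4 ≤ 16 * Real.log X ^ 4 := by
    have := pow_le_pow_left₀ hle0 hle 4
    have e1 : (2 * Real.log X) ^ 4 = 16 * Real.log X ^ 4 := by ring
    linarith
  have hL4 : Real.log X ≤ Real.log X ^ 4 := by
    calc Real.log X = Real.log X ^ 1 := (pow_one _).symm
      _ ≤ Real.log X ^ 4 := pow_le_pow_right₀ hL1 (by norm_num)
  have q1 := piece (K := K) (T := X) (a := d) (b := X) (by linarith) hK (by linarith) (by linarith) (by linarith) (by linarith) hup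
  have q2 := piece (K := K) (T := X) (a := X) (b := e) (by linarith) hK (by linarith) (by linarith) (by linarith) (by linarith) hup
  have s1 := intervalIntegral.integral_add_adjacent_intervals (logz_int A d) (logz_int d X)
  have s2 := intervalIntegral.integral_add_adjacent_intervals (logz_int A X) (logz_int X e)
  have m1 := DD_add (a := A) (b := d) (c := X) (by linarith) (by linarith) (by linarith)
  have m2 := DD_add (a := A) (b := X) (c := e) (by linarith) (by linarith) (by linarith)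
  have n1 := DD_nonneg d X
  have n2 := DD_nonneg X e
  have hpi := Real.pi_pos
  have r1 : 2 * Real.pi * DD A d ≤ 2 * Real.pi * DD A X := by
    apply mul_le_mul_of_nonneg_left _ (by positivity)
    linarith
  have r2 : 2 * Real.pi * DD A X ≤ 2 * Real.pi * DD A e := by
    apply mul_le_mul_of_nonneg_left _ (by positivity)
    linarith
  have w1 : M * Real.log d ^ 4 ≤ M * Real.log X ^ 4 := mul_le_mul_of_nonneg_left p1 hM0.le
  have w2 : M * Real.log e ^ 4 ≤ M * (16 * Real.log X ^ 4) := mul_le_mul_of_nonneg_left p2 hM0.le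
  have w3 : K * Real.log X ≤ K * Real.log X ^ 4 := mul_le_mul_of_nonneg_left hL4 hK.le
  have w4 : 0 ≤ M * Real.log X ^ 4 := by positivity
  have w5 : 0 ≤ K * Real.log X ^ 4 := by positivity
  obtain ⟨h11, h12⟩ := abs_le.1 h1
  obtain ⟨h21, h22⟩ := abs_le.1 h2
  rw [abs_le]
  constructor <;> linarith

/-- Littlewood's lemma on the critical line: the integral of `log |ζ|` and the distances of all the zeros to the
right of the line -/
theorem litt_full : ∃ C T0 : ℝ, 0 < C ∧ ∀ T : ℝ, T0 ≤ T →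
    |(∫ y in (0:ℝ)..T, Real.log ‖riemannZeta ⟨1 / 2, y⟩‖) - 2 * Real.pi * DD 1 T| ≤ C * Real.log T ^ 4 := by
  obtain ⟨C, A, hC, hA, h⟩ := litt_two
  obtain ⟨B, hB⟩ : ∃ B : ℝ, B = |(∫ y in (0:ℝ)..A, Real.log ‖riemannZeta ⟨1 / 2, y⟩‖) - 2 * Real.pi * DD 1 A| := ⟨_, rfl⟩
  refine ⟨C + B, A + 2, by have := abs_nonneg ((∫ y in (0:ℝ)..A, Real.log ‖riemannZeta ⟨1 / 2, y⟩‖) - 2 * Real.pi * DD 1 A); linarith, fun T hT => ?_⟩
  have h1 := h T hT
  have s1 := intervalIntegral.integral_add_adjacent_intervals (logz_int 0 A) (logz_int A T)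
  have m1 := DD_add (a := 1) (b := A) (c := T) le_rfl (by linarith) (by linarith)
  rw [← s1, m1]
  have e : (∫ y in (0:ℝ)..A, Real.log ‖riemannZeta ⟨1 / 2, y⟩‖) + (∫ y in A..T, Real.log ‖riemannZeta ⟨1 / 2, y⟩‖) -
      2 * Real.pi * (DD 1 A + DD A T) = ((∫ y in (0:ℝ)..A, Real.log ‖riemannZeta ⟨1 / 2, y⟩‖) - 2 * Real.pi * DD 1 A) +
      ((∫ y in A..T, Real.log ‖riemannZeta ⟨1 / 2, y⟩‖) - 2 * Real.pi * DD A T) := by ring
  rw [e]
  refine (abs_add_le _ _).trans ?_
  rw [← hB]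
  have hL1 : 1 ≤ Real.log T := H370.Loc.one_le_log (by linarith)
  have hL4 : 1 ≤ Real.log T ^ 4 := one_le_pow₀ hL1
  have hB0 : 0 ≤ B := by rw [hB]; exact abs_nonneg _
  have : B * 1 ≤ B * Real.log T ^ 4 := mul_le_mul_of_nonneg_left hL4 hB0
  linarith

end

end Pool.Agent.Zk69.Hx
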