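import Pool.Agent.Zk4.Mc

set_option autoImplicit false

/-!
Monotonicity of `|ξ|` on horizontal half lines (helper69): the criterion and the measure of the bad heights.
-/

namespace Pool.Agent.Zk69.Hx

open Complex Filter Topology Set MeasureTheory
open Pool.Agent.H24R2.JP (XX)
open Pool.Agent.H24R2.JP.B1h (XX_diff)
open Pool.Agent.TH803.LG
open Pool.Agent.Zk4 (MSQ)

noncomputable section

/-- `|ξ(σ + it)|` is strictly increasing for `σ ≥ 1/2`. -/
def IncX (t : ℝ) : Prop := StrictMonoOn (fun σ : ℝ => ‖xi (σ + t * I)‖) (Ici (1 / 2))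

lemma xi_norm (σ t : ℝ) : ‖xi (σ + t * I)‖ = (1 / 8) * ‖XX (I * t + ((σ - 1 / 2 : ℝ) : ℂ))‖ := by
  rw [xi_XX, norm_mul]
  congr 1
  · simp
  · congr 2
    push_cast
    ring

lemma incx_iff (t : ℝ) : IncX t ↔ StrictMonoOn (fun y : ℝ => ‖XX (I * t + y)‖) (Ici 0) := by
  unfold IncX
  constructor
  · intro h a ha b hb hab
    have h1 := h (show a + 1 / 2 ∈ Ici (1 / 2 : ℝ) by
        have : (0 : ℝ) ≤ a := ha
        simp only [mem_Ici]; linarith) (show b + 1 / 2 ∈ Ici (1 / 2 : ℝ) by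
        have : (0 : ℝ) ≤ b := hb
        simp only [mem_Ici]; linarith) (by linarith : a + 1 / 2 < b + 1 / 2)
    simp only [xi_norm, add_sub_cancel_right] at h1
    simp only
    linarith
  · intro h a ha b hb hab
    have h1 := h (show a - 1 / 2 ∈ Ici (0 : ℝ) by
        have : (1 / 2 : ℝ) ≤ a := ha
        simp only [mem_Ici]; linarith) (show b - 1 / 2 ∈ Ici (0 : ℝ) by
        have : (1 / 2 : ℝ) ≤ b := hb
        simp only [mem_Ici]; linarith) (by linarith : a - 1 / 2 < b - 1 / 2)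
    simp only [xi_norm]
    simp only at h1
    linarith

/-- no segment of zeros -/
lemma exists_ne (t : ℝ) {y : ℝ} (hy : 0 < y) : ∃ y0 : ℝ, 0 ≤ y0 ∧ y0 < y ∧ XX (I * t + y0) ≠ 0 := by
  by_contra hcon
  push Not at hcon
  have hf : AnalyticOnNhd ℂ (fun z : ℂ => XX (I * t + z)) univ := fun z _ =>
    (XX_diff.comp ((differentiable_const _).add differentiable_id)).analyticAt z
  have hfr : ∃ᶠ z : ℂ in 𝓝[≠] (0 : ℂ), (fun z : ℂ => XX (I * t + z)) z = 0 := by
    have h1 : Tendsto (fun s : ℝ => (s : ℂ)) (𝓝[>] (0:ℝ)) (𝓝[≠] (0 : ℂ)) := by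
      refine tendsto_nhdsWithin_of_tendsto_nhds_of_eventually_within _ ?_ ?_
      · have := (Complex.continuous_ofReal.tendsto (0:ℝ)).mono_left (nhdsWithin_le_nhds (s := Ioi 0))
        simpa using this
      · filter_upwards [self_mem_nhdsWithin] with s hs
        intro h
        have h2 : (s : ℂ) = 0 := h
        have h3 : (0:ℝ) < s := hs
        rw [Complex.ofReal_eq_zero] at h2
        linarith
    have h2 : ∃ᶠ s : ℝ in 𝓝[>] (0:ℝ), XX (I * t + s) = 0 := by
      apply Eventually.frequently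
      filter_upwards [Ioo_mem_nhdsGT hy] with s hs
      exact hcon s hs.1.le hs.2
    exact h1.frequently h2
  have h3 := hf.eqOn_zero_of_preconnected_of_frequently_eq_zero isPreconnected_univ (mem_univ _) hfr
  have h4 := h3 (mem_univ (1 : ℂ))
  simp only [Pi.zero_apply] at h4
  exact XX_ne (z := I * t + 1) (by simp; norm_num) h4

/-- under the Riemann hypothesis the modulus increases on every horizontal half line -/
theorem incx_of_rh (hRH : RiemannHypothesis) (t : ℝ) : IncX t := by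
  rw [incx_iff]
  have key : ∀ n0, 1 ≤ n0 → 0 < LC n0 t → StrictMonoOn (fun y : ℝ => ‖XX (I * t + y)‖) (Ici 0) := by
    intro n0 hn0 hpos y1 h1 y2 h2 h12
    have h1' : (0:ℝ) ≤ y1 := h1
    have h3 := (hasSum_EE t y2).sub (hasSum_EE t y1)
    have h4 := sum_le_hasSum {n0} (fun k _ => by
      have h5 : y1 ^ (2 * k) ≤ y2 ^ (2 * k) := pow_le_pow_left₀ h1' h12.le _
      have := mul_le_mul_of_nonneg_left h5 (rh_nonneg hRH k t)
      linarith) h3
    simp only [Finset.sum_singleton] at h4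
    have h6 : y1 ^ (2 * n0) < y2 ^ (2 * n0) := pow_lt_pow_left₀ h12 h1' (by omega)
    have h7 := mul_lt_mul_of_pos_left h6 hpos
    have h8 : ‖XX (I * t + y1)‖ ^ 2 < ‖XX (I * t + y2)‖ ^ 2 := by linarith
    exact lt_of_pow_lt_pow_left₀ 2 (norm_nonneg _) h8
  by_cases h0 : XX (I * t) = 0
  · by_contra hcon
    have hz : ∀ n, LC n t = 0 := by
      intro n
      rcases Nat.eq_zero_or_pos n with rfl | hn
      · have h1 := hasSum_EE t 0
        have e : XX (I * t + ((0:ℝ) : ℂ)) = 0 := by rw [Complex.ofReal_zero, add_zero]; exact h0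
        rw [e, norm_zero] at h1
        have h3 := h1.unique (hasSum_single (f := fun k : ℕ => LC k t * (0:ℝ) ^ (2 * k)) 0 (fun k hk => by
          rw [zero_pow (by omega), mul_zero]))
        simpa using h3.symm
      · by_contra hne
        have h1 := rh_nonneg hRH n t
        exact hcon (key n hn (lt_of_le_of_ne h1 (Ne.symm hne)))
    have h1 := hasSum_EE t 1
    have h2 : ‖XX (I * t + ((1:ℝ) : ℂ))‖ ^ 2 = 0 := by
      refine h1.unique ?_
      have : (fun k : ℕ => LC k t * (1:ℝ) ^ (2 * k)) = fun _ => 0 := by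
        funext k
        rw [hz k, zero_mul]
      rw [this]
      exact hasSum_zero
    have h3 : XX (I * t + ((1:ℝ) : ℂ)) = 0 := by
      rw [← norm_eq_zero]
      exact pow_eq_zero_iff (two_ne_zero) |>.1 h2
    exact XX_ne (z := I * t + ((1:ℝ) : ℂ)) (by simp; norm_num) h3
  · exact key 1 le_rfl (rh_pos hRH h0 1)

/-- if the modulus increases on almost every horizontal half line, the Riemann hypothesis holds -/
theorem rh_of_incx (h : volume {t : ℝ | ¬ IncX t} = 0) : RiemannHypothesis := by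
  refine RH_of fun s hs hs1 h0 => ?_
  obtain ⟨y, hy⟩ : ∃ y : ℝ, y = s.re - 1 / 2 := ⟨_, rfl⟩
  have hy0 : 0 < y := by rw [hy]; linarith
  have hX : XX (I * s.im + y) = 0 := by
    have e1 : (1 / 2 + (I * s.im + y) : ℂ) = s := by
      apply Complex.ext
      · simp [hy]
      · simp
    have hne0 : s ≠ 0 := by
      intro h
      rw [h] at hs
      norm_num at hs
    rw [Pool.Agent.H24R2.JP.Zer.XX_eq _ (by rw [e1]; exact hne0) (by
      rw [e1]; exact sub_ne_zero.2 (Ne.symm hs1)), e1]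
    have h2 := riemannZeta_def_of_ne_zero hne0
    rw [h0] at h2
    have h3 : Gammaℝ s ≠ 0 := Gammaℝ_ne_zero_of_re_pos (by linarith)
    have h4 : completedRiemannZeta s = 0 := by
      rcases div_eq_zero_iff.1 h2.symm with h | h
      · exact h
      · exact absurd h h3
    rw [h4, mul_zero]
  obtain ⟨y0, hy1, hy2, hy3⟩ := exists_ne s.im hy0
  have hc : ∀ a : ℝ, Continuous fun t : ℝ => ‖XX (I * t + a)‖ := fun a =>
    (XX_diff.continuous.comp (by fun_prop)).norm
  have hU : IsOpen {t : ℝ | ‖XX (I * t + y)‖ < ‖XX (I * t + y0)‖} := isOpen_lt (hc y) (hc y0)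
  have hsub : {t : ℝ | ‖XX (I * t + y)‖ < ‖XX (I * t + y0)‖} ⊆ {t : ℝ | ¬ IncX t} := by
    intro t ht hinc
    rw [incx_iff] at hinc
    have h1 := hinc (show y0 ∈ Ici (0:ℝ) from hy1) (show y ∈ Ici (0:ℝ) from hy0.le) hy2
    have h2 : ‖XX (I * t + y)‖ < ‖XX (I * t + y0)‖ := ht
    simp only at h1
    linarith
  have h4 := measure_mono_null hsub h
  have h5 := hU.measure_pos volume ⟨s.im, by
    show ‖XX (I * s.im + y)‖ < ‖XX (I * s.im + y0)‖
    rw [hX, norm_zero]
    exact norm_pos_iff.2 hy3⟩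
  rw [h4] at h5
  exact lt_irrefl _ h5

/-- the heights on which `|ξ|` is not strictly increasing to the right of the critical line -/
def BadX : Set ℝ := {t : ℝ | ¬ IncX t}

theorem badx_sub : BadX ⊆ Pool.Agent.Zk4.Bad := by
  intro t ht hall
  apply ht
  have h1 := Pool.Agent.Zk4.xi_strict hall
  unfold IncX
  have e : (fun σ : ℝ => ‖xi (σ + t * I)‖) = fun σ : ℝ => ‖xi (σ + I * t)‖ := by
    funext σ
    rw [mul_comm (t : ℂ) I]
  rw [e]
  exact h1

theorem badx_total (hms : MSQ) : ∃ T0 : ℝ, ∀ T, T0 ≤ T → volume (BadX ∩ Icc 0 T) ≤ ENNReal.ofReal (0.1151 * T) := by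
  obtain ⟨T0, h⟩ := Pool.Agent.Zk4.bad_total hms
  exact ⟨T0, fun T hT => (measure_mono (inter_subset_inter_left _ badx_sub)).trans (h T hT)⟩

end

end Pool.Agent.Zk69.Hx
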