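import Pool.Agent.Zk5.HR.Def
import Pool.Agent.Zk69.Hx.Main
import Pool.Agent.Zk69.Hx.Lw
import Pool.Agent.TH850.UR.ExpMom

set_option autoImplicit false

/-!
The equivalences between small bad sets, close zeros and Littlewood's mean (helper69).
-/

namespace Pool.Agent.Zk69.Hx

open Filter Topology MeasureTheory Complex Set
open H370 (mult zset GoodL good_zeta NN Zf NR)
open Pool.Agent.H24R2.JP (XX)
open Pool.Agent.Zk4
open Pool.Agent.Zk5.HR (SmallM Near SmallD)

noncomputable section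

/-! ### (1) the bad heights of `ζ` are bad for `ξ` -/

theorem anti_of_incx {t : ℝ} (ht : 8 ≤ t) (h : IncX t) : Anti t := by
  rw [incx_iff] at h
  refine anti_of_growth (C := 0) ht (fun x1 x2 h1 h12 => ?_) (fun x hx h0 => ?_) (fun x1 x2 h1 h12 => ?_)
  · rw [zero_mul, zero_mul, Real.exp_zero, mul_one, mul_one]
    rcases h12.eq_or_lt with h3 | h3
    · rw [h3]
    · exact (h (show x1 ∈ Ici (0:ℝ) from h1) (show x2 ∈ Ici (0:ℝ) from h1.trans h12) h3).le
  · have h1 := h (show (0:ℝ) ∈ Ici (0:ℝ) by simp) (show x ∈ Ici (0:ℝ) from hx.le) hx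
    simp only at h1
    rw [h0, norm_zero] at h1
    exact absurd h1 (not_lt.2 (norm_nonneg _))
  · rw [zero_mul, add_zero]
    exact Lam_strict ht h1 (h1.trans h12.le) h12

theorem badz_sub : BadZ ∩ Ici 8 ⊆ BadX := by
  rintro t ⟨h1, h2⟩ h3
  exact h1 (anti_of_incx h2 h3)

theorem smallM_z (h : SmallM BadX) : SmallM BadZ := by
  intro κ hκ
  obtain ⟨T0, hT0⟩ := h (κ / 2) (by positivity)
  refine ⟨max (max T0 8) (16 / κ), fun T hT => ?_⟩
  have g1 : T0 ≤ T := ((le_max_left _ _).trans (le_max_left _ _)).trans hT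
  have g2 : 8 ≤ T := ((le_max_right _ _).trans (le_max_left _ _)).trans hT
  have g3 : 16 / κ ≤ T := (le_max_right _ _).trans hT
  rw [div_le_iff₀ hκ] at g3
  have hsub : BadZ ∩ Icc 0 T ⊆ Icc 0 8 ∪ (BadX ∩ Icc 0 T) := by
    rintro t ⟨h1, h2⟩
    rcases le_or_gt t 8 with h3 | h3
    · exact Or.inl ⟨h2.1, h3⟩
    · exact Or.inr ⟨badz_sub ⟨h1, h3.le⟩, h2⟩
  refine (measure_mono hsub).trans ((measure_union_le _ _).trans ?_)
  rw [Real.volume_Icc]
  refine (add_le_add_right (hT0 T g1) _).trans ?_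
  rw [← ENNReal.ofReal_add (by norm_num) (by positivity)]
  apply ENNReal.ofReal_le_ofReal
  nlinarith

/-! ### (3) few bad heights when the zeros are close to the line on average -/

theorem smallM_x (h : SmallD) : SmallM BadX := by
  intro κ hκ
  obtain ⟨T0, hT0⟩ := h (κ / 8) (by positivity)
  refine ⟨max (max T0 2) (8 / κ), fun T hT => ?_⟩
  have g1 : T0 ≤ T := ((le_max_left _ _).trans (le_max_left _ _)).trans hT
  have g2 : 2 ≤ T := ((le_max_right _ _).trans (le_max_left _ _)).trans hT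
  have g3 : 8 / κ ≤ T := (le_max_right _ _).trans hT
  rw [div_le_iff₀ hκ] at g3
  have hsub : BadX ∩ Icc 0 T ⊆ Icc 0 (3 / 2) ∪ (Bad ∩ Icc (3 / 2) T) := by
    rintro t ⟨h1, h2⟩
    rcases le_or_gt t (3 / 2) with h3 | h3
    · exact Or.inl ⟨h2.1, h3⟩
    · exact Or.inr ⟨badx_sub h1, h3.le, h2.2⟩
  have h4 := bad_measure (A := 3 / 2) (X := T) le_rfl
  rw [show (3 / 2 - 1 / 2 : ℝ) = 1 by norm_num] at h4
  have h5 := hT0 (T + 1 / 2) (by linarith)
  refine (measure_mono hsub).trans ((measure_union_le _ _).trans ?_)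
  rw [Real.volume_Icc]
  refine (add_le_add_right h4 _).trans ?_
  rw [← ENNReal.ofReal_add (by norm_num) (by have := DD_nonneg 1 (T + 1 / 2); linarith)]
  apply ENNReal.ofReal_le_ofReal
  nlinarith

/-! ### (4) Markov -/

theorem near_of_smallD (h : SmallD) : Near := by
  classical
  intro ε κ hε hκ
  obtain ⟨T0, hT0⟩ := h (ε * κ / 2) (by positivity)
  refine ⟨max T0 3, fun T hT => ?_⟩
  have g1 : T0 ≤ T := (le_max_left _ _).trans hT
  have g2 : 3 ≤ T := (le_max_right _ _).trans hT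
  have hL : 1 ≤ Real.log T := H370.Loc.one_le_log g2
  have hL0 : 0 < Real.log T := by linarith
  have h1 := dist_DD (a := 1) (b := T) le_rfl
  have h2 := hT0 T g1
  have h3 : ε / Real.log T * ∑ s ∈ (Zf riemannZeta 1 T).filter (fun s => ε / Real.log T ≤ |s.re - 1 / 2|),
      (mult riemannZeta s : ℝ) ≤ ∑ s ∈ Zf riemannZeta 1 T, (mult riemannZeta s : ℝ) * |s.re - 1 / 2| := by
    rw [Finset.mul_sum]
    refine le_trans ?_ (Finset.sum_le_sum_of_subset_of_nonneg (Finset.filter_subset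
      (fun s => ε / Real.log T ≤ |s.re - 1 / 2|) _) fun s _ _ => by positivity)
    refine Finset.sum_le_sum fun s hs => ?_
    have h4 := (Finset.mem_filter.1 hs).2
    rw [mul_comm]
    exact mul_le_mul_of_nonneg_left h4 (Nat.cast_nonneg _)
  rw [h1] at h3
  set S := ∑ s ∈ (Zf riemannZeta 1 T).filter (fun s => ε / Real.log T ≤ |s.re - 1 / 2|), (mult riemannZeta s : ℝ)
  have h5 : ε / Real.log T * S ≤ ε * κ * T := by linarith
  rw [div_mul_eq_mul_div, div_le_iff₀ hL0] at h5
  have h6 : ε * S ≤ ε * (κ * T * Real.log T) := by nlinarith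
  exact le_of_mul_le_mul_left h6 hε

/-! ### (2) close zeros have a small sum of distances -/

lemma xexp {κ A x : ℝ} (hκ : 0 < κ) (hA : A ≤ x) :
    x ≤ 2 / κ * Real.exp (-(κ * A / 2)) * Real.exp (κ * x) := by
  have h1 : κ * x / 2 ≤ Real.exp (κ * x / 2) := by
    have := Real.add_one_le_exp (κ * x / 2)
    linarith
  have h2 : Real.exp (κ * x / 2) ≤ Real.exp (-(κ * A / 2)) * Real.exp (κ * x) := by
    rw [← Real.exp_add]
    apply Real.exp_le_exp.2
    nlinarith
  have h3 : x = 2 / κ * (κ * x / 2) := by field_simp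
  rw [mul_assoc]
  calc x = 2 / κ * (κ * x / 2) := h3
    _ ≤ 2 / κ * (Real.exp (-(κ * A / 2)) * Real.exp (κ * x)) :=
      mul_le_mul_of_nonneg_left (h1.trans h2) (by positivity)

theorem block_small (h : Near) : ∀ κ : ℝ, 0 < κ → ∃ T0 : ℝ, 2 ≤ T0 ∧ ∀ T : ℝ, T0 ≤ T → DD T (2 * T) ≤ κ * T := by
  classical
  intro κ hκ
  obtain ⟨k, C, T1, hk, hk1, hC, hT1, hexp⟩ := Pool.Agent.TH850.UR.expmom
  obtain ⟨C2, hC2, hcr⟩ := H370.NN_crude good_zeta
  -- the tail
  obtain ⟨A, hA1, hA⟩ : ∃ A : ℝ, 1 ≤ A ∧ 2 / k * Real.exp (-(k * A / 2)) * C ≤ κ / 3 := by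
    have h1 : Tendsto (fun A : ℝ => 2 / k * Real.exp (-(k * A / 2)) * C) atTop (𝓝 (2 / k * 0 * C)) := by
      refine Tendsto.mul_const _ (Tendsto.const_mul _ ?_)
      refine Real.tendsto_exp_neg_atTop_nhds_zero.comp ?_
      exact (tendsto_id.const_mul_atTop hk).atTop_div_const (by norm_num)
    rw [mul_zero, zero_mul] at h1
    obtain ⟨A, hA⟩ := ((h1.eventually (ge_mem_nhds (show (0:ℝ) < κ / 3 by positivity))).and
      (eventually_ge_atTop 1)).exists
    exact ⟨A, hA.2, hA.1⟩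
  obtain ⟨ε, hε⟩ : ∃ ε : ℝ, ε = κ / (3 * C2) := ⟨_, rfl⟩
  have hε0 : 0 < ε := by rw [hε]; positivity
  obtain ⟨T2, hT2⟩ := h ε (κ / (12 * A)) hε0 (by positivity)
  refine ⟨max 10 (max T1 T2), le_trans (by norm_num) (le_max_left _ _), fun T hT => ?_⟩
  have g1 : 10 ≤ T := (le_max_left _ _).trans hT
  have g2 : T1 ≤ T := ((le_max_left _ _).trans (le_max_right _ _)).trans hT
  have g3 : T2 ≤ T := ((le_max_right _ _).trans (le_max_right _ _)).trans hT
  have hT0 : 0 < T := by linarith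
  have hL : 1 ≤ Real.log T := H370.Loc.one_le_log (by linarith)
  obtain ⟨L, hLd⟩ : ∃ L : ℝ, L = Real.log T := ⟨_, rfl⟩
  have hL0 : 0 < L := by linarith
  have hL2 : Real.log (2 * T) ≤ 2 * L := by
    rw [Real.log_mul (by norm_num) hT0.ne', ← hLd]
    have h2 : Real.log 2 ≤ Real.log T := Real.log_le_log (by norm_num) (by linarith)
    linarith
  have hL2' : L ≤ Real.log (2 * T) := by
    rw [hLd]
    exact Real.log_le_log hT0 (by linarith)
  have hL20 : 0 < Real.log (2 * T) := by linarith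
  have e1 := hexp T g2
  have e2 := hcr T (by linarith) T (2 * T) le_rfl le_rfl
  have e3 := hT2 (2 * T) (by linarith)
  rw [← hLd] at e1 e2
  have hT1' : (1:ℝ) ≤ T := by linarith
  rw [H370.NN_eq good_zeta hT1'] at e2
  push_cast at e2
  -- pointwise
  have key : ∀ s ∈ Zf riemannZeta T (2 * T), (mult riemannZeta s : ℝ) * max (s.re - 1 / 2) 0 ≤
      ε / L * (mult riemannZeta s : ℝ) +
      A / L * (if ε / Real.log (2 * T) ≤ |s.re - 1 / 2| then (mult riemannZeta s : ℝ) else 0) +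
      1 / L * (2 / k * Real.exp (-(k * A / 2))) * ((mult riemannZeta s : ℝ) * Pool.Agent.TH850.UR.ew k L s) := by
    intro s _
    have hm : (0:ℝ) ≤ (mult riemannZeta s : ℝ) := Nat.cast_nonneg _
    have hmax : max (s.re - 1 / 2) 0 ≤ |s.re - 1 / 2| := max_le (le_abs_self _) (abs_nonneg _)
    have hew : 0 < Pool.Agent.TH850.UR.ew k L s := Real.exp_pos _
    have p1 : 0 ≤ ε / L * (mult riemannZeta s : ℝ) := by positivity
    have p3 : 0 ≤ 1 / L * (2 / k * Real.exp (-(k * A / 2))) * ((mult riemannZeta s : ℝ) * Pool.Agent.TH850.UR.ew k L s) := by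
      positivity
    have p0 : (mult riemannZeta s : ℝ) * max (s.re - 1 / 2) 0 ≤ (mult riemannZeta s : ℝ) * |s.re - 1 / 2| :=
      mul_le_mul_of_nonneg_left hmax hm
    refine p0.trans ?_
    split_ifs with h1
    · have p2 : 0 ≤ A / L * (mult riemannZeta s : ℝ) := by positivity
      rcases le_or_gt (|s.re - 1 / 2| * L) A with h2 | h2
      · have h3 : |s.re - 1 / 2| ≤ A / L := by rwa [le_div_iff₀ hL0]
        have h4 := mul_le_mul_of_nonneg_left h3 hm
        have h5 : (mult riemannZeta s : ℝ) * (A / L) = A / L * (mult riemannZeta s : ℝ) := mul_comm _ _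
        linarith
      · have h3 := xexp hk h2.le
        have h4 : |s.re - 1 / 2| ≤ 1 / L * (2 / k * Real.exp (-(k * A / 2)) * Pool.Agent.TH850.UR.ew k L s) := by
          rw [div_mul_eq_mul_div, one_mul, le_div_iff₀ hL0]
          exact h3
        have h5 := mul_le_mul_of_nonneg_left h4 hm
        have h6 : (mult riemannZeta s : ℝ) * (1 / L * (2 / k * Real.exp (-(k * A / 2)) * Pool.Agent.TH850.UR.ew k L s)) =
          1 / L * (2 / k * Real.exp (-(k * A / 2))) * ((mult riemannZeta s : ℝ) * Pool.Agent.TH850.UR.ew k L s) := by ring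
        linarith
    · rw [not_le] at h1
      have h3 : |s.re - 1 / 2| ≤ ε / L := h1.le.trans (div_le_div_of_nonneg_left hε0.le hL0 hL2')
      have h4 := mul_le_mul_of_nonneg_left h3 hm
      have h5 : (mult riemannZeta s : ℝ) * (ε / L) = ε / L * (mult riemannZeta s : ℝ) := mul_comm _ _
      rw [mul_zero]
      linarith
  have hsum := Finset.sum_le_sum key
  rw [Finset.sum_add_distrib, Finset.sum_add_distrib, ← Finset.mul_sum, ← Finset.mul_sum, ← Finset.mul_sum,
    ← Finset.sum_filter] at hsum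
  have hsub : ∑ s ∈ (Zf riemannZeta T (2 * T)).filter (fun s => ε / Real.log (2 * T) ≤ |s.re - 1 / 2|),
      (mult riemannZeta s : ℝ) ≤ κ / (12 * A) * (2 * T) * Real.log (2 * T) := by
    refine le_trans ?_ e3
    refine Finset.sum_le_sum_of_subset_of_nonneg ?_ fun _ _ _ => Nat.cast_nonneg _
    intro s hs
    rw [Finset.mem_filter, H370.mem_Zf good_zeta hT1'] at hs
    rw [Finset.mem_filter, H370.mem_Zf good_zeta le_rfl]
    obtain ⟨⟨s1, s2, s3, s4, s5⟩, s6⟩ := hs
    exact ⟨⟨s1, s2, by linarith, s4, s5⟩, s6⟩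
  have q1 : ε / L * ∑ s ∈ Zf riemannZeta T (2 * T), (mult riemannZeta s : ℝ) ≤ κ / 3 * T := by
    have h1 := mul_le_mul_of_nonneg_left e2 (show 0 ≤ ε / L by positivity)
    have h2 : ε / L * (C2 * (T * L)) = κ / 3 * T := by
      rw [hε]
      field_simp
    linarith
  have q2 : A / L * ∑ s ∈ (Zf riemannZeta T (2 * T)).filter (fun s => ε / Real.log (2 * T) ≤ |s.re - 1 / 2|),
      (mult riemannZeta s : ℝ) ≤ κ / 3 * T := by
    have h1 := mul_le_mul_of_nonneg_left hsub (show 0 ≤ A / L by positivity)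
    have h2 : A / L * (κ / (12 * A) * (2 * T) * Real.log (2 * T)) ≤ A / L * (κ / (12 * A) * (2 * T) * (2 * L)) := by
      apply mul_le_mul_of_nonneg_left _ (by positivity)
      exact mul_le_mul_of_nonneg_left hL2 (by positivity)
    have h3 : A / L * (κ / (12 * A) * (2 * T) * (2 * L)) = κ / 3 * T := by
      field_simp
      ring
    linarith
  have q3 : 1 / L * (2 / k * Real.exp (-(k * A / 2))) * ∑ s ∈ Zf riemannZeta T (2 * T),
      (mult riemannZeta s : ℝ) * Pool.Agent.TH850.UR.ew k L s ≤ κ / 3 * T := by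
    have h1 := mul_le_mul_of_nonneg_left e1 (show 0 ≤ 1 / L * (2 / k * Real.exp (-(k * A / 2))) by positivity)
    have h2 : 1 / L * (2 / k * Real.exp (-(k * A / 2))) * (C * (T * L)) = (2 / k * Real.exp (-(k * A / 2)) * C) * T := by
      field_simp
    have h3 := mul_le_mul_of_nonneg_right hA hT0.le
    linarith
  unfold DD
  linarith

theorem smallD_of_near (h : Near) : SmallD := by
  intro κ hκ
  obtain ⟨A, hA2, hb⟩ := block_small h (κ / 2) (by positivity)
  have hA0 : 0 < A := by linarith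
  have hsum := dyadic_sum (f := fun X => DD 1 X) (κ := κ / 2) (T0 := A) (C := DD 1 (2 * A)) (by positivity) hA0
    (fun X h1 h2 => by
      have h3 := DD_add (a := 1) (b := X) (c := 2 * A) le_rfl (by linarith) h2
      have h4 := DD_nonneg X (2 * A)
      linarith)
    (fun X hX => by
      have h3 := DD_add (a := 1) (b := X / 2) (c := X) le_rfl (by linarith) (by linarith)
      have h4 := hb (X / 2) (by linarith)
      rw [show 2 * (X / 2) = X by ring] at h4
      linarith)
  refine ⟨max A (2 * DD 1 (2 * A) / κ), fun T hT => ?_⟩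
  have g1 : A ≤ T := (le_max_left _ _).trans hT
  have g2 : 2 * DD 1 (2 * A) / κ ≤ T := (le_max_right _ _).trans hT
  rw [div_le_iff₀ hκ] at g2
  have h1 := hsum T g1
  linarith

/-! ### (5) Littlewood's mean -/

/-- the mean value of `log |ζ|` on the critical line up to height `T` is `o(1)` -/
def SmallI : Prop := ∀ κ : ℝ, 0 < κ → ∃ T0 : ℝ, ∀ T : ℝ, T0 ≤ T →
  |∫ y in (0:ℝ)..T, Real.log ‖riemannZeta ⟨1 / 2, y⟩‖| ≤ κ * T

lemma log4_small {C κ : ℝ} (hC : 0 < C) (hκ : 0 < κ) : ∃ T0 : ℝ, ∀ T : ℝ, T0 ≤ T → C * Real.log T ^ 4 ≤ κ * T := by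
  have hlit : ∀ᶠ T : ℝ in atTop, C * Real.log T ^ 4 ≤ κ * T := by
    have h1 := (Real.isLittleO_pow_log_id_atTop (n := 4)).def (show 0 < κ / C by positivity)
    filter_upwards [h1, eventually_gt_atTop 0] with T hT hT0
    rw [Real.norm_eq_abs, Real.norm_eq_abs, id, abs_of_pos hT0] at hT
    have h2 := (le_abs_self (Real.log T ^ 4)).trans hT
    calc C * Real.log T ^ 4 ≤ C * (κ / C * T) := mul_le_mul_of_nonneg_left h2 hC.le
      _ = κ * T := by field_simp
  exact hlit.exists_forall_of_atTop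

theorem smallI_iff : SmallD ↔ SmallI := by
  obtain ⟨C, T1, hC, h⟩ := litt_full
  have hpi := Real.pi_pos
  have hpi4 := Real.pi_lt_four
  constructor
  · intro hD κ hκ
    obtain ⟨T2, hT2⟩ := hD (κ / 16) (by positivity)
    obtain ⟨T3, hT3⟩ := log4_small hC (show 0 < κ / 2 by positivity)
    refine ⟨max T1 (max T2 T3), fun T hT => ?_⟩
    have h1 := h T ((le_max_left _ _).trans hT)
    have h2 := hT2 T (((le_max_left _ _).trans (le_max_right _ _)).trans hT)
    have h3 := hT3 T (((le_max_right _ _).trans (le_max_right _ _)).trans hT)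
    have h0 := DD_nonneg 1 T
    have h4 : 2 * Real.pi * DD 1 T ≤ 8 * DD 1 T := by nlinarith
    have h5 : 0 ≤ 2 * Real.pi * DD 1 T := by positivity
    obtain ⟨h6, h7⟩ := abs_le.1 h1
    rw [abs_le]
    constructor <;> linarith
  · intro hI κ hκ
    obtain ⟨T2, hT2⟩ := hI κ hκ
    obtain ⟨T3, hT3⟩ := log4_small hC hκ
    refine ⟨max T1 (max T2 T3), fun T hT => ?_⟩
    have h1 := h T ((le_max_left _ _).trans hT)
    have h2 := hT2 T (((le_max_left _ _).trans (le_max_right _ _)).trans hT)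
    have h3 := hT3 T (((le_max_right _ _).trans (le_max_right _ _)).trans hT)
    have h0 := DD_nonneg 1 T
    have hpi3 := Real.pi_gt_three
    have h4 : 6 * DD 1 T ≤ 2 * Real.pi * DD 1 T := by nlinarith
    obtain ⟨h6, h7⟩ := abs_le.1 h1
    obtain ⟨h8, h9⟩ := abs_le.1 h2
    linarith

end

end Pool.Agent.Zk69.Hx
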