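import Pool.Agent.Zk69.Hx.Eqv

set_option autoImplicit false

/-!
Monotonicity of `|ξ|` on `[θ, ∞)` and of `|ζ|` on `(-∞, 1 - θ]` (helper69).
-/

namespace Pool.Agent.Zk69.Hx

open Filter Topology MeasureTheory Complex Set Polynomial
open H370 (mult zset GoodL good_zeta NN Zf NR)
open Pool.Agent.H24R2.JP (XX FF)
open Pool.Agent.H24R2.JP.B1h (XX_diff XX_conj XX_neg)
open Pool.Agent.TH803.LG
open Pool.Agent.Zk4 (Dq Dq_nonneg Fa Fa_nonneg Fa_eq poly_four polys FF_sq' Anti BadZ norm_zeta_left Lam Lam_strict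
  zeta_of_XX)
open scoped ComplexConjugate

noncomputable section

/-! ### growth from `x0` on -/

lemma Dq_mono_from {δ y x0 : ℝ} (hx0 : 0 ≤ x0) (hδ : 0 ≤ δ) (h : δ ≤ x0 ∨ δ ≤ |y|) :
    MonotoneOn (Dq δ y) (Ici x0) := by
  intro a ha b hb hab
  have ha' : x0 ≤ a := ha
  have ha0 : 0 ≤ a := hx0.trans ha'
  have h1 : a ^ 2 ≤ b ^ 2 := pow_le_pow_left₀ ha0 hab 2
  have h2 : 0 ≤ b ^ 2 + a ^ 2 - 2 * δ ^ 2 + 2 * y ^ 2 := by
    rcases h with h | h
    · have h3 : δ ^ 2 ≤ a ^ 2 := pow_le_pow_left₀ hδ (h.trans ha') 2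
      nlinarith [sq_nonneg y]
    · have h3 : δ ^ 2 ≤ y ^ 2 := by
        rw [← sq_abs y]
        exact pow_le_pow_left₀ hδ h 2
      nlinarith [sq_nonneg a, sq_nonneg b]
  have e : Dq δ y b - Dq δ y a = (b ^ 2 - a ^ 2) * (b ^ 2 + a ^ 2 - 2 * δ ^ 2 + 2 * y ^ 2) := by
    unfold Dq
    ring
  have := mul_nonneg (sub_nonneg.2 h1) h2
  linarith

lemma prod_mono_from (s : Multiset ℂ) (t x0 : ℝ)
    (hc : ∀ a ∈ s, MonotoneOn (fun x => Fa a t x) (Ici x0)) :
    MonotoneOn (fun x => (s.map (fun a => Fa a t x)).prod) (Ici x0) := by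
  induction s using Multiset.induction_on with
  | empty =>
    intro x _ y _ _
    simp
  | cons a s ih =>
    have h1 := ih fun b hb => hc b (Multiset.mem_cons_of_mem hb)
    have h2 := hc a (Multiset.mem_cons_self a s)
    have h3 := h2.mul h1 (fun x _ => Fa_nonneg a t x) (fun x _ => Multiset.prod_nonneg (by
      intro v hv
      obtain ⟨b, _, rfl⟩ := Multiset.mem_map.1 hv
      exact Fa_nonneg b t x))
    refine h3.congr fun x _ => ?_
    simp only [Multiset.map_cons, Multiset.prod_cons, Pi.mul_apply]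

theorem growth_from {t x0 : ℝ} (hx0 : 0 ≤ x0) (h : ∀ w : ℂ, XX w = 0 → x0 < w.re → w.re ≤ |t - w.im|) :
    MonotoneOn (fun x : ℝ => ‖XX (I * t + x)‖) (Ici x0) := by
  intro x1 h1 x2 h2 h12
  obtain ⟨P, hP0, hP⟩ := polys
  have hpoly : ∀ N, ‖aeval ((I * t + x1 : ℂ) ^ 2) (P N)‖ ^ 4 ≤ ‖aeval ((I * t + x2 : ℂ) ^ 2) (P N)‖ ^ 4 := by
    intro N
    rw [poly_four, poly_four]
    apply mul_le_mul_of_nonneg_left _ (by positivity)
    refine prod_mono_from _ t x0 (fun a ha => ?_) h1 h2 h12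
    obtain ⟨w0, hw0⟩ := Pool.Agent.TH803.LG.exists_sq a
    obtain ⟨w, hw, hwre⟩ : ∃ w : ℂ, w ^ 2 = a ∧ 0 ≤ w.re := by
      rcases le_total 0 w0.re with h | h
      · exact ⟨w0, hw0, h⟩
      · exact ⟨-w0, by rw [neg_sq]; exact hw0, by rw [Complex.neg_re]; linarith⟩
    have hz : XX w = 0 := by
      rw [← FF_sq', hw]
      apply hP0 N
      have h2 : ((P N).map (algebraMap ℝ ℂ)).IsRoot a := isRoot_of_mem_roots ha
      rwa [IsRoot, eval_map_algebraMap] at h2
    have g1 : w.re ≤ x0 ∨ w.re ≤ |t - w.im| := by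
      rcases le_or_gt w.re x0 with h3 | h3
      · exact Or.inl h3
      · exact Or.inr (h w hz h3)
    have g2 : w.re ≤ x0 ∨ w.re ≤ |t + w.im| := by
      rcases le_or_gt w.re x0 with h3 | h3
      · exact Or.inl h3
      · have h4 := h (conj w) (by rw [XX_conj, hz, map_zero]) (by rw [Complex.conj_re]; exact h3)
        rw [Complex.conj_im, Complex.conj_re, sub_neg_eq_add] at h4
        exact Or.inr h4
    have h5 := (Dq_mono_from hx0 hwre g1).mul (Dq_mono_from hx0 hwre g2) (fun x _ => Dq_nonneg _ _ _)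
      (fun x _ => Dq_nonneg _ _ _)
    refine h5.congr fun x _ => ?_
    simp only [Pi.mul_apply]
    rw [Fa_eq hw]
  have hlim : ∀ x : ℝ, Tendsto (fun N => ‖aeval ((I * t + x : ℂ) ^ 2) (P N)‖ ^ 4) atTop (𝓝 (‖XX (I * t + x)‖ ^ 4)) := by
    intro x
    have h3 := (tendstoLocallyUniformlyOn_univ.2 hP).tendsto_at (mem_univ ((I * t + x : ℂ) ^ 2))
    rw [FF_sq'] at h3
    exact (h3.norm).pow 4
  have hfin := le_of_tendsto_of_tendsto (hlim x1) (hlim x2) (Eventually.of_forall hpoly)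
  exact le_of_pow_le_pow_left₀ (by norm_num) (norm_nonneg _) hfin

/-- `XX` has a zero -/
lemma exists_zero : ∃ w : ℂ, XX w = 0 := by
  obtain ⟨C, T0, hC, hT0, h⟩ := H370.nn_asymp good_zeta
  obtain ⟨T, hT1, hT2⟩ : ∃ T : ℝ, T0 ≤ T ∧ 2 * Real.pi * C < Real.log T :=
    ((eventually_ge_atTop T0).and (Real.tendsto_log_atTop.eventually_gt_atTop (2 * Real.pi * C))).exists
  have h1 := h T hT1 T (2 * T) le_rfl (by linarith) (by linarith) le_rfl
  have h2 := (abs_le.1 h1).1
  have hT0' : 0 < T := by linarith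
  have hpi := Real.pi_pos
  have h3 : C * T < T * Real.log T / (2 * Real.pi) := by
    rw [lt_div_iff₀ (by positivity)]
    nlinarith
  have h4 : (0:ℝ) < NN riemannZeta T (2 * T) := by linarith
  have hT1' : (1:ℝ) ≤ T := by linarith
  rw [H370.NN_eq good_zeta hT1'] at h4
  have h5 : (Zf riemannZeta T (2 * T)).Nonempty := by
    rw [Finset.nonempty_iff_ne_empty]
    intro h6
    rw [h6, Finset.sum_empty] at h4
    simp at h4
  obtain ⟨s, hs⟩ := h5
  rw [H370.mem_Zf good_zeta hT1'] at hs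
  exact ⟨s - 1 / 2, ((Pool.Agent.Y23.isZ_iff s).1 ⟨hs.2.2.2.2, hs.1, hs.2.1⟩)⟩

/-- the modulus is not constant on a segment -/
lemma not_const (t : ℝ) {x1 x2 c : ℝ} (h12 : x1 < x2) (h : ∀ x ∈ Icc x1 x2, ‖XX (I * t + x)‖ ^ 2 = c) : False := by
  have hf : AnalyticOnNhd ℂ (fun z : ℂ => XX (I * t + z) * XX (-(I * t) + z) - c) univ := fun z _ =>
    (((XX_diff.comp ((differentiable_const _).add differentiable_id)).mul
      (XX_diff.comp ((differentiable_const _).add differentiable_id))).sub (differentiable_const _)).analyticAt z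
  have hreal : ∀ x : ℝ, XX (I * t + x) * XX (-(I * t) + x) = ((‖XX (I * t + x)‖ ^ 2 : ℝ) : ℂ) := by
    intro x
    have e : (-(I * t) + x : ℂ) = conj (I * t + x) := by
      rw [map_add, map_mul, Complex.conj_I, Complex.conj_ofReal, Complex.conj_ofReal]
      ring
    rw [e, XX_conj, Complex.mul_conj, Complex.normSq_eq_norm_sq]
  have hfr : ∃ᶠ z : ℂ in 𝓝[≠] (x1 : ℂ), (fun z : ℂ => XX (I * t + z) * XX (-(I * t) + z) - c) z = 0 := by
    have h1 : Tendsto (fun s : ℝ => (s : ℂ)) (𝓝[>] x1) (𝓝[≠] (x1 : ℂ)) := by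
      refine tendsto_nhdsWithin_of_tendsto_nhds_of_eventually_within _ ?_ ?_
      · exact (Complex.continuous_ofReal.tendsto x1).mono_left nhdsWithin_le_nhds
      · filter_upwards [self_mem_nhdsWithin] with s hs
        intro h
        have h3 : x1 < s := hs
        exact absurd (Complex.ofReal_injective h) (ne_of_gt h3)
    have h2 : ∃ᶠ s : ℝ in 𝓝[>] x1, XX (I * t + s) * XX (-(I * t) + s) - c = 0 := by
      apply Eventually.frequently
      filter_upwards [Ioo_mem_nhdsGT h12] with s hs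
      rw [hreal, h s ⟨hs.1.le, hs.2.le⟩, sub_self]
    exact h1.frequently h2
  have h3 := hf.eqOn_zero_of_preconnected_of_frequently_eq_zero isPreconnected_univ (mem_univ _) hfr
  have h4 : ∀ z : ℂ, XX (I * t + z) * XX (-(I * t) + z) = c := by
    intro z
    have := h3 (mem_univ z)
    simp only [Pi.zero_apply] at this
    exact sub_eq_zero.1 this
  obtain ⟨w, hw⟩ := exists_zero
  have h5 := h4 (w - I * t)
  rw [show (I * t + (w - I * t) : ℂ) = w by ring, hw, zero_mul] at h5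
  have h6 := h4 1
  rw [← h5] at h6
  rcases mul_eq_zero.1 h6 with h7 | h7
  · exact XX_ne (z := I * t + 1) (by simp; norm_num) h7
  · exact XX_ne (z := -(I * t) + 1) (by simp; norm_num) h7

theorem strict_from {t x0 : ℝ} (hx0 : 0 ≤ x0) (h : ∀ w : ℂ, XX w = 0 → x0 < w.re → w.re ≤ |t - w.im|) :
    StrictMonoOn (fun x : ℝ => ‖XX (I * t + x)‖) (Ici x0) := by
  have hm := growth_from hx0 h
  intro x1 h1 x2 h2 h12
  refine lt_of_le_of_ne (hm h1 h2 h12.le) fun heq => ?_
  refine not_const t (c := ‖XX (I * t + x1)‖ ^ 2) h12 fun x hx => ?_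
  have hx' : x ∈ Ici x0 := (show x0 ≤ x1 from h1).trans hx.1
  have g1 := hm h1 hx' hx.1
  have g2 := hm hx' h2 hx.2
  simp only at g1 g2 heq
  rw [le_antisymm (g2.trans_eq heq.symm) g1]

/-! ### the theorems for `ξ` and `ζ` -/

/-- `|ξ(σ + it)|` is strictly increasing for `σ ≥ θ`. -/
def IncF (θ t : ℝ) : Prop := StrictMonoOn (fun σ : ℝ => ‖xi (σ + t * I)‖) (Ici θ)

/-- `|ζ(σ + it)|` is strictly decreasing for `σ ≤ 1 - θ`. -/
def DecF (θ t : ℝ) : Prop := StrictAntiOn (fun σ : ℝ => ‖riemannZeta (σ + t * I)‖) (Iic (1 - θ))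

lemma incF_iff (θ t : ℝ) : IncF θ t ↔ StrictMonoOn (fun y : ℝ => ‖XX (I * t + y)‖) (Ici (θ - 1 / 2)) := by
  unfold IncF
  constructor
  · intro h a ha b hb hab
    have h1 := h (show a + 1 / 2 ∈ Ici θ by
        have : θ - 1 / 2 ≤ a := ha
        simp only [mem_Ici]; linarith) (show b + 1 / 2 ∈ Ici θ by
        have : θ - 1 / 2 ≤ b := hb
        simp only [mem_Ici]; linarith) (by linarith : a + 1 / 2 < b + 1 / 2)
    simp only [xi_norm, add_sub_cancel_right] at h1
    simp only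
    linarith
  · intro h a ha b hb hab
    have h1 := h (show a - 1 / 2 ∈ Ici (θ - 1 / 2) by
        have : θ ≤ a := ha
        simp only [mem_Ici]; linarith) (show b - 1 / 2 ∈ Ici (θ - 1 / 2) by
        have : θ ≤ b := hb
        simp only [mem_Ici]; linarith) (by linarith : a - 1 / 2 < b - 1 / 2)
    simp only [xi_norm]
    simp only at h1
    linarith

theorem decF_of_incF {θ t : ℝ} (hθ : 1 / 2 ≤ θ) (ht : 8 ≤ t) (h : IncF θ t) : DecF θ t := by
  rw [incF_iff] at h
  have ht0 : 0 < t := by linarith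
  intro σ1 h1 σ2 h2 h12
  simp only [mem_Iic] at h1 h2
  obtain ⟨x1, hx1⟩ : ∃ x : ℝ, x = 1 / 2 - σ2 := ⟨_, rfl⟩
  obtain ⟨x2, hx2⟩ : ∃ x : ℝ, x = 1 / 2 - σ1 := ⟨_, rfl⟩
  have p1 : 0 ≤ x1 := by linarith
  have p2 : x1 < x2 := by linarith
  have p3 : 0 < x2 := by linarith
  have e1 : σ2 = 1 / 2 - x1 := by linarith
  have e2 : σ1 = 1 / 2 - x2 := by linarith
  simp only
  rw [e1, e2, norm_zeta_left ht0 p1, norm_zeta_left ht0 p3.le]
  have hc : 0 < Real.exp (-(3 / 4) * Real.log Real.pi) / 4 := by positivity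
  apply mul_lt_mul_of_pos_right _ hc
  have q1 := h (show x1 ∈ Ici (θ - 1 / 2) by simp only [mem_Ici]; linarith)
    (show x2 ∈ Ici (θ - 1 / 2) by simp only [mem_Ici]; linarith) p2
  have q2 := Lam_strict ht p1 p3.le p2
  simp only at q1
  exact mul_lt_mul q1 (Real.exp_le_exp.2 q2.le) (Real.exp_pos _) (norm_nonneg _)

/-- the truncated cone criterion: only the zeros with `β > θ` within `β - 1/2` of the height `t` can spoil it -/
theorem incF_of {θ t : ℝ} (hθ : 1 / 2 ≤ θ)
    (h : ∀ s : ℂ, riemannZeta s = 0 → θ < s.re → s.re < 1 → s.re - 1 / 2 ≤ |s.im - t|) : IncF θ t := by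
  rw [incF_iff]
  refine strict_from (by linarith) fun w hw hre => ?_
  obtain ⟨h2, h3, h4⟩ := zeta_of_XX hw
  have e1 : (1 / 2 + w : ℂ).re = 1 / 2 + w.re := by simp
  have e2 : (1 / 2 + w : ℂ).im = w.im := by simp
  have h5 := h _ h2 (by rw [e1]; linarith) h4
  rw [e1, e2] at h5
  rw [abs_sub_comm]
  linarith

/-- no zeros with `Re s > θ` -/
def Free (θ : ℝ) : Prop := ∀ s : ℂ, θ < s.re → riemannZeta s ≠ 0

theorem incF_of_free {θ : ℝ} (hθ : 1 / 2 ≤ θ) (h : Free θ) (t : ℝ) : IncF θ t :=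
  incF_of hθ fun s hs h1 _ => absurd hs (h s h1)

/-- no segment of zeros -/
lemma exists_ne' (t : ℝ) {x0 y : ℝ} (hy : x0 < y) : ∃ y0 : ℝ, x0 ≤ y0 ∧ y0 < y ∧ XX (I * t + y0) ≠ 0 := by
  by_contra hcon
  push Not at hcon
  refine not_const t (x1 := x0) (x2 := (x0 + y) / 2) (c := 0) (by linarith) fun x hx => ?_
  rw [hcon x hx.1 (by linarith [hx.2]), norm_zero]
  norm_num

theorem free_of_incF {θ : ℝ} (hθ : 1 / 2 ≤ θ) (h : volume {t : ℝ | ¬ IncF θ t} = 0) : Free θ := by
  intro s hs h0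
  have hs1 : s ≠ 1 := by
    rintro rfl
    exact riemannZeta_ne_zero_of_one_le_re (by simp) h0
  obtain ⟨y, hy⟩ : ∃ y : ℝ, y = s.re - 1 / 2 := ⟨_, rfl⟩
  have hy0 : θ - 1 / 2 < y := by rw [hy]; linarith
  have hX : XX (I * s.im + y) = 0 := by
    have e1 : (1 / 2 + (I * s.im + y) : ℂ) = s := by
      apply Complex.ext
      · simp [hy]
      · simp
    have hne0 : s ≠ 0 := by
      intro h
      rw [h] at hs
      simp at hs
      linarith
    rw [Pool.Agent.H24R2.JP.Zer.XX_eq _ (by rw [e1]; exact hne0) (by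
      rw [e1]; exact sub_ne_zero.2 (Ne.symm hs1)), e1]
    have h2 := riemannZeta_def_of_ne_zero hne0
    rw [h0] at h2
    have h3 : Gammaℝ s ≠ 0 := Gammaℝ_ne_zero_of_re_pos (by linarith)
    have h4 : completedRiemannZeta s = 0 := by
      rcases div_eq_zero_iff.1 h2.symm with h | h
      · exact h
      · exact absurd h h3
    rw [h4, mul_zero]
  obtain ⟨y0, hy1, hy2, hy3⟩ := exists_ne' s.im hy0
  have hc : ∀ a : ℝ, Continuous fun t : ℝ => ‖XX (I * t + a)‖ := fun a =>
    (XX_diff.continuous.comp (by fun_prop)).norm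
  have hU : IsOpen {t : ℝ | ‖XX (I * t + y)‖ < ‖XX (I * t + y0)‖} := isOpen_lt (hc y) (hc y0)
  have hsub : {t : ℝ | ‖XX (I * t + y)‖ < ‖XX (I * t + y0)‖} ⊆ {t : ℝ | ¬ IncF θ t} := by
    intro t ht hinc
    rw [incF_iff] at hinc
    have h1 := hinc (show y0 ∈ Ici (θ - 1 / 2) from hy1) (show y ∈ Ici (θ - 1 / 2) from hy0.le) hy2
    have h2 : ‖XX (I * t + y)‖ < ‖XX (I * t + y0)‖ := ht
    simp only at h1
    linarith
  have h4 := measure_mono_null hsub h
  have h5 := hU.measure_pos volume ⟨s.im, by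
    show ‖XX (I * s.im + y)‖ < ‖XX (I * s.im + y0)‖
    rw [hX, norm_zero]
    exact norm_pos_iff.2 hy3⟩
  rw [h4] at h5
  exact lt_irrefl _ h5

/-! ### almost all heights are good up to the distance `A / log T` from the critical line -/

lemma far_measure {θ A X : ℝ} (hθ : 1 / 2 ≤ θ) (hA : 3 / 2 ≤ A) :
    volume ({t : ℝ | ¬ IncF θ t} ∩ Icc A X) ≤ ENNReal.ofReal (2 * ∑ s ∈ Zf riemannZeta (A - 1 / 2) (X + 1 / 2),
      if θ < s.re then (mult riemannZeta s : ℝ) * |s.re - 1 / 2| else 0) := by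
  classical
  have hcover : {t : ℝ | ¬ IncF θ t} ∩ Icc A X ⊆ ⋃ s ∈ Zf riemannZeta (A - 1 / 2) (X + 1 / 2),
      (if θ < s.re then Icc (s.im - |s.re - 1 / 2|) (s.im + |s.re - 1 / 2|) else ∅) := by
    rintro t ⟨ht, htA, htX⟩
    have h1 : ¬ ∀ s : ℂ, riemannZeta s = 0 → θ < s.re → s.re < 1 → s.re - 1 / 2 ≤ |s.im - t| :=
      fun h => ht (incF_of hθ h)
    push Not at h1
    obtain ⟨s, hs, hs1, hs2, hs3⟩ := h1
    obtain ⟨h2, h3⟩ := abs_lt.mp hs3
    simp only [mem_iUnion]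
    refine ⟨s, ?_, ?_⟩
    · rw [H370.mem_Zf good_zeta (by linarith)]
      exact ⟨by linarith, hs2, by linarith, by linarith, hs⟩
    · rw [if_pos hs1, abs_of_nonneg (by linarith)]
      constructor <;> linarith
  refine (measure_mono hcover).trans ((measure_biUnion_finset_le _ _).trans ?_)
  rw [Finset.mul_sum, ENNReal.ofReal_sum_of_nonneg (fun s _ => by split_ifs <;> positivity)]
  refine Finset.sum_le_sum fun s hs => ?_
  split_ifs with h
  · rw [Real.volume_Icc]
    apply ENNReal.ofReal_le_ofReal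
    have h1 : (1:ℝ) ≤ mult riemannZeta s := by exact_mod_cast Pool.Agent.Zk4.mult_zeta_pos (by linarith) hs
    have h2 := abs_nonneg (s.re - 1 / 2)
    nlinarith
  · simp

/-- the sum of the distances of the zeros farther than `A / log T` from the line, in a dyadic block -/
lemma far_block : ∀ κ : ℝ, 0 < κ → ∃ A T0 : ℝ, 1 ≤ A ∧ 2 ≤ T0 ∧ ∀ T : ℝ, T0 ≤ T →
    ∑ s ∈ Zf riemannZeta T (2 * T), (if 1 / 2 + A / Real.log T < s.re then (mult riemannZeta s : ℝ) * |s.re - 1 / 2| else 0)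
      ≤ κ * T := by
  classical
  intro κ hκ
  obtain ⟨k, C, T1, hk, hk1, hC, hT1, hexp⟩ := Pool.Agent.TH850.UR.expmom
  obtain ⟨A, hA1, hA⟩ : ∃ A : ℝ, 1 ≤ A ∧ 2 / k * Real.exp (-(k * A / 2)) * C ≤ κ := by
    have h1 : Tendsto (fun A : ℝ => 2 / k * Real.exp (-(k * A / 2)) * C) atTop (𝓝 (2 / k * 0 * C)) := by
      refine Tendsto.mul_const _ (Tendsto.const_mul _ ?_)
      refine Real.tendsto_exp_neg_atTop_nhds_zero.comp ?_
      exact (tendsto_id.const_mul_atTop hk).atTop_div_const (by norm_num)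
    rw [mul_zero, zero_mul] at h1
    obtain ⟨A, hA⟩ := ((h1.eventually (ge_mem_nhds hκ)).and (eventually_ge_atTop 1)).exists
    exact ⟨A, hA.2, hA.1⟩
  refine ⟨A, max 10 T1, hA1, le_trans (by norm_num) (le_max_left _ _), fun T hT => ?_⟩
  have g1 : 10 ≤ T := (le_max_left _ _).trans hT
  have g2 : T1 ≤ T := (le_max_right _ _).trans hT
  have hT0 : 0 < T := by linarith
  have hL : 1 ≤ Real.log T := H370.Loc.one_le_log (by linarith)
  obtain ⟨L, hLd⟩ : ∃ L : ℝ, L = Real.log T := ⟨_, rfl⟩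
  have hL0 : 0 < L := by linarith
  have e1 := hexp T g2
  rw [← hLd] at e1 ⊢
  have key : ∀ s ∈ Zf riemannZeta T (2 * T), (if 1 / 2 + A / L < s.re then (mult riemannZeta s : ℝ) * |s.re - 1 / 2| else 0) ≤
      1 / L * (2 / k * Real.exp (-(k * A / 2))) * ((mult riemannZeta s : ℝ) * Pool.Agent.TH850.UR.ew k L s) := by
    intro s _
    have hm : (0:ℝ) ≤ (mult riemannZeta s : ℝ) := Nat.cast_nonneg _
    have hew : 0 < Pool.Agent.TH850.UR.ew k L s := Real.exp_pos _
    split_ifs with h1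
    · have h2 : A ≤ |s.re - 1 / 2| * L := by
        have h3 : A / L ≤ |s.re - 1 / 2| := by
          have := le_abs_self (s.re - 1 / 2)
          linarith
        rwa [div_le_iff₀ hL0] at h3
      have h3 := xexp hk h2
      have h4 : |s.re - 1 / 2| ≤ 1 / L * (2 / k * Real.exp (-(k * A / 2)) * Pool.Agent.TH850.UR.ew k L s) := by
        rw [div_mul_eq_mul_div, one_mul, le_div_iff₀ hL0]
        exact h3
      have h5 := mul_le_mul_of_nonneg_left h4 hm
      have h6 : (mult riemannZeta s : ℝ) * (1 / L * (2 / k * Real.exp (-(k * A / 2)) * Pool.Agent.TH850.UR.ew k L s)) =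
        1 / L * (2 / k * Real.exp (-(k * A / 2))) * ((mult riemannZeta s : ℝ) * Pool.Agent.TH850.UR.ew k L s) := by ring
      linarith
    · positivity
  refine (Finset.sum_le_sum key).trans ?_
  rw [← Finset.mul_sum]
  have h1 := mul_le_mul_of_nonneg_left e1 (show 0 ≤ 1 / L * (2 / k * Real.exp (-(k * A / 2))) by positivity)
  have h2 : 1 / L * (2 / k * Real.exp (-(k * A / 2))) * (C * (T * L)) = (2 / k * Real.exp (-(k * A / 2)) * C) * T := by
    field_simp
  have h3 := mul_le_mul_of_nonneg_right hA hT0.le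
  linarith

/-- for almost all heights the monotonicity holds up to the distance `A / log t` from the critical line -/
theorem almost_all : ∀ κ : ℝ, 0 < κ → ∃ A T0 : ℝ, 1 ≤ A ∧ ∀ T : ℝ, T0 ≤ T →
    volume ({t : ℝ | ¬ IncF (1 / 2 + A / Real.log t) t} ∩ Icc 0 T) ≤ ENNReal.ofReal (κ * T) := by
  classical
  intro κ hκ
  obtain ⟨A, B, hA, hB, hb⟩ := far_block (κ / 32) (by positivity)
  -- a block
  have hfin : ∀ a b : ℝ, volume ({t : ℝ | ¬ IncF (1 / 2 + 4 * A / Real.log t) t} ∩ Icc a b) ≠ ⊤ := fun a b =>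
    ((measure_mono inter_subset_right).trans_lt (by rw [Real.volume_Icc]; exact ENNReal.ofReal_lt_top)).ne
  obtain ⟨T1, hT1⟩ : ∃ T1 : ℝ, T1 = max 16 (2 * B) := ⟨_, rfl⟩
  have hT16 : 16 ≤ T1 := by rw [hT1]; exact le_max_left _ _
  have hT2B : 2 * B ≤ T1 := by rw [hT1]; exact le_max_right _ _
  have hblock : ∀ T : ℝ, T1 ≤ T → volume ({t : ℝ | ¬ IncF (1 / 2 + 4 * A / Real.log t) t} ∩ Icc T (2 * T)) ≤
      ENNReal.ofReal (κ / 2 * T) := by
    intro T hT
    have hT0 : 0 < T := by linarith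
    have hL : 1 ≤ Real.log T := H370.Loc.one_le_log (by linarith)
    obtain ⟨θ, hθ⟩ : ∃ θ : ℝ, θ = 1 / 2 + A / Real.log (T / 2) := ⟨_, rfl⟩
    have hL2 : Real.log (2 * T) ≤ 4 * Real.log (T / 2) := by
      have h1 : Real.log (2 * T) ≤ Real.log ((T / 2) ^ 4) := by
        apply Real.log_le_log (by linarith)
        have h2 : 8 ≤ T / 2 := by linarith
        have h3 : (8:ℝ) ^ 3 ≤ (T / 2) ^ 3 := pow_le_pow_left₀ (by norm_num) h2 3
        nlinarith
      rw [Real.log_pow] at h1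
      exact_mod_cast h1
    have hLh : 0 < Real.log (T / 2) := Real.log_pos (by linarith)
    have hsub : {t : ℝ | ¬ IncF (1 / 2 + 4 * A / Real.log t) t} ∩ Icc T (2 * T) ⊆ {t : ℝ | ¬ IncF θ t} ∩ Icc T (2 * T) := by
      rintro t ⟨h1, h2⟩
      refine ⟨fun h3 => h1 ?_, h2⟩
      have ht0 : 0 < t := by linarith [h2.1]
      have h4 : θ ≤ 1 / 2 + 4 * A / Real.log t := by
        rw [hθ]
        have h5 : Real.log t ≤ 4 * Real.log (T / 2) := (Real.log_le_log ht0 h2.2).trans hL2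
        have h6 : 0 < Real.log t := Real.log_pos (by linarith [h2.1])
        have h7 : A / Real.log (T / 2) ≤ 4 * A / Real.log t := by
          rw [div_le_div_iff₀ hLh h6]
          nlinarith
        linarith
      exact h3.mono (Ici_subset_Ici.2 h4)
    have hθ2 : 1 / 2 ≤ θ := by
      rw [hθ]
      have : 0 < A / Real.log (T / 2) := by positivity
      linarith
    have hm := far_measure (θ := θ) (A := T) (X := 2 * T) hθ2 (by linarith)
    refine (measure_mono hsub).trans (hm.trans (ENNReal.ofReal_le_ofReal ?_))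
    -- three blocks
    have c1 := hb (T / 2) (by linarith)
    have c2 := hb T (by linarith)
    have c3 := hb (2 * T) (by linarith)
    rw [show 2 * (T / 2) = T by ring] at c1
    have hθ1 : ∀ U : ℝ, T / 2 ≤ U → 1 / 2 + A / Real.log U ≤ θ := by
      intro U hU
      rw [hθ]
      have h5 : Real.log (T / 2) ≤ Real.log U := Real.log_le_log (by linarith) hU
      have := div_le_div_of_nonneg_left (show 0 ≤ A by linarith) hLh h5
      linarith
    have hsum : ∑ s ∈ Zf riemannZeta (T - 1 / 2) (2 * T + 1 / 2),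
        (if θ < s.re then (mult riemannZeta s : ℝ) * |s.re - 1 / 2| else 0) ≤
        ∑ s ∈ Zf riemannZeta (T / 2) T, (if 1 / 2 + A / Real.log (T / 2) < s.re then (mult riemannZeta s : ℝ) * |s.re - 1 / 2| else 0) +
        ∑ s ∈ Zf riemannZeta T (2 * T), (if 1 / 2 + A / Real.log T < s.re then (mult riemannZeta s : ℝ) * |s.re - 1 / 2| else 0) +
        ∑ s ∈ Zf riemannZeta (2 * T) (2 * (2 * T)), (if 1 / 2 + A / Real.log (2 * T) < s.re then (mult riemannZeta s : ℝ) * |s.re - 1 / 2| else 0) := by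
      have hle : ∀ U V : ℝ, T / 2 ≤ U → ∑ s ∈ Zf riemannZeta U V, (if θ < s.re then (mult riemannZeta s : ℝ) * |s.re - 1 / 2| else 0) ≤
          ∑ s ∈ Zf riemannZeta U V, (if 1 / 2 + A / Real.log U < s.re then (mult riemannZeta s : ℝ) * |s.re - 1 / 2| else 0) := by
        intro U V hU
        refine Finset.sum_le_sum fun s _ => ?_
        have h6 := hθ1 U hU
        split_ifs with h7 h8
        · exact le_rfl
        · exact absurd (lt_of_le_of_lt h6 h7) h8
        · positivity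
        · exact le_rfl
      have h8 := hle (T / 2) T le_rfl
      have h9 := hle T (2 * T) (by linarith)
      have h10 := hle (2 * T) (2 * (2 * T)) (by linarith)
      refine le_trans ?_ (add_le_add (add_le_add h8 h9) h10)
      have hnn : ∀ s : ℂ, (0:ℝ) ≤ (if θ < s.re then (mult riemannZeta s : ℝ) * |s.re - 1 / 2| else 0) := by
        intro s
        split_ifs <;> positivity
      have hsub2 : Zf riemannZeta (T - 1 / 2) (2 * T + 1 / 2) ⊆
          (Zf riemannZeta (T / 2) T ∪ Zf riemannZeta T (2 * T)) ∪ Zf riemannZeta (2 * T) (2 * (2 * T)) := by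
        intro s hs
        rw [H370.mem_Zf good_zeta (by linarith)] at hs
        obtain ⟨a1, a2, a3, a4, a5⟩ := hs
        rw [Finset.mem_union, Finset.mem_union, H370.mem_Zf good_zeta (by linarith), H370.mem_Zf good_zeta (by linarith),
          H370.mem_Zf good_zeta (by linarith)]
        rcases le_or_gt s.im T with b1 | b1
        · exact Or.inl (Or.inl ⟨a1, a2, by linarith, b1, a5⟩)
        · rcases le_or_gt s.im (2 * T) with b2 | b2
          · exact Or.inl (Or.inr ⟨a1, a2, b1, b2, a5⟩)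
          · exact Or.inr ⟨a1, a2, b2, by linarith, a5⟩
      refine (Finset.sum_le_sum_of_subset_of_nonneg hsub2 fun s _ _ => hnn s).trans ?_
      have hun : ∀ S S' : Finset ℂ, ∑ s ∈ S ∪ S', (if θ < s.re then (mult riemannZeta s : ℝ) * |s.re - 1 / 2| else 0) ≤
          ∑ s ∈ S, (if θ < s.re then (mult riemannZeta s : ℝ) * |s.re - 1 / 2| else 0) +
          ∑ s ∈ S', (if θ < s.re then (mult riemannZeta s : ℝ) * |s.re - 1 / 2| else 0) := by
        intro S S'
        rw [← Finset.sum_union_inter]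
        have : 0 ≤ ∑ s ∈ S ∩ S', (if θ < s.re then (mult riemannZeta s : ℝ) * |s.re - 1 / 2| else 0) :=
          Finset.sum_nonneg fun s _ => hnn s
        linarith
      refine (hun _ _).trans ?_
      linarith [hun (Zf riemannZeta (T / 2) T) (Zf riemannZeta T (2 * T))]
    have hkT : 0 ≤ κ * T := by positivity
    linarith
  -- dyadic sum
  obtain ⟨f, hf⟩ : ∃ f : ℝ → ℝ, f = fun X => (volume ({t : ℝ | ¬ IncF (1 / 2 + 4 * A / Real.log t) t} ∩ Icc 0 X)).toReal := ⟨_, rfl⟩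
  have hstep : ∀ X, T1 ≤ X → f X ≤ 2 * T1 + κ / 2 * X := by
    refine Pool.Agent.Zk4.dyadic_sum (f := f) (by positivity) (by linarith) (fun X h1 h2 => ?_) (fun X hX => ?_)
    · rw [hf]
      have h3 : volume ({t : ℝ | ¬ IncF (1 / 2 + 4 * A / Real.log t) t} ∩ Icc 0 X) ≤ ENNReal.ofReal X := by
        refine (measure_mono inter_subset_right).trans ?_
        rw [Real.volume_Icc, sub_zero]
      have h4 := ENNReal.toReal_mono ENNReal.ofReal_ne_top h3
      rw [ENNReal.toReal_ofReal (by linarith)] at h4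
      simp only
      linarith
    · rw [hf]
      have h3 : {t : ℝ | ¬ IncF (1 / 2 + 4 * A / Real.log t) t} ∩ Icc 0 X ⊆
          ({t : ℝ | ¬ IncF (1 / 2 + 4 * A / Real.log t) t} ∩ Icc 0 (X / 2)) ∪
          ({t : ℝ | ¬ IncF (1 / 2 + 4 * A / Real.log t) t} ∩ Icc (X / 2) (2 * (X / 2))) := by
        rintro t ⟨h4, h5, h6⟩
        rcases le_or_gt t (X / 2) with h7 | h7
        · exact Or.inl ⟨h4, h5, h7⟩
        · exact Or.inr ⟨h4, h7.le, by linarith⟩
      have h4 := (measure_mono (μ := volume) h3).trans (measure_union_le _ _)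
      have h5 := hblock (X / 2) (by linarith)
      have h6 := h4.trans (add_le_add_right h5 _)
      have h7 := ENNReal.toReal_mono (ENNReal.add_ne_top.2 ⟨hfin _ _, ENNReal.ofReal_ne_top⟩) h6
      rw [ENNReal.toReal_add (hfin _ _) ENNReal.ofReal_ne_top, ENNReal.toReal_ofReal (by
        have : 0 < X := by linarith
        positivity)] at h7
      exact h7
  refine ⟨4 * A, max T1 (4 * T1 / κ), by linarith, fun T hT => ?_⟩
  have g1 : T1 ≤ T := (le_max_left _ _).trans hT
  have g2 : 4 * T1 / κ ≤ T := (le_max_right _ _).trans hT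
  rw [div_le_iff₀ hκ] at g2
  have h1 := hstep T g1
  rw [hf] at h1
  rw [← ENNReal.ofReal_toReal (hfin 0 T)]
  apply ENNReal.ofReal_le_ofReal
  simp only at h1
  linarith

end

end Pool.Agent.Zk69.Hx
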